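import Pool.Agent.Run7.h623.AE.Loc

/-!
The kernel of a matrix over the group ring in finitely many cosets of a normal subgroup.
-/

set_option autoImplicit false
set_option linter.unusedSectionVars false

open scoped InnerProductSpace ENNReal Pointwise
open Filter Topology

namespace Run7.h623.AE

open Pool.Agent.H80R2
open Pool.Agent.H80R2.BC (L2 GMat vdim IsTr LInv Equi act kerA dk TorDiv Coef AtR)
open Pool.Agent.H812R3
open Pool.Agent.W656
open Pool.Agent.W656.VA

variable {ι κ G : Type} [Group G] [Fintype ι] [Fintype κ] (K : Subgroup G) [K.Normal]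

/-- the kernel vectors with support over `S` -/
noncomputable def NN (A : GMat κ ι G) (S : Finset (G ⧸ K)) : Submodule ℂ (L2 (ι × G)) :=
  kerA A ⊓ Sp K ι S

theorem isClosed_NN (A : GMat κ ι G) (S : Finset (G ⧸ K)) :
    IsClosed (NN K A S : Set (L2 (ι × G))) := isClosed_inf (isClosed_kerA A) (isClosed_Sp K S)

theorem NN_mono (A : GMat κ ι G) {S T : Finset (G ⧸ K)} (h : S ⊆ T) : NN K A S ≤ NN K A T :=
  fun _ hx => ⟨hx.1, fun i g hg => hx.2 i g fun h2 => hg (h h2)⟩

theorem NN_lt (A : GMat κ ι G) (S : Finset (G ⧸ K)) (k : K) (x : L2 (ι × G)) (hx : x ∈ NN K A S) :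
    VA.lt ι (k : G) x ∈ NN K A S := ⟨linv_lt (linv_kerA A) _ hx.1, Sp_lt K S k hx.2⟩

/-- the dimension over `K` of the kernel vectors with support over `S` -/
noncomputable def aa (A : GMat κ ι G) (S : Finset (G ⧸ K)) : ℝ :=
  ∑ q ∈ S, ∑ i : ι, wt (NN K A S) (i, sg K q)

theorem aa_empty (A : GMat κ ι G) : aa K A ∅ = 0 := by
  unfold aa
  rw [Finset.sum_empty]

theorem vdim_NN (A : GMat κ ι G) {S W : Finset (G ⧸ K)} (h : S ⊆ W) :
    vdim (cm K W (NN K A S)) = aa K A S := by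
  have hW : NN K A S ≤ Sp K ι W := fun x hx i g hg => hx.2 i g fun h2 => hg (h h2)
  rw [vdim_cm K W (isClosed_NN K A S) hW, aa]
  symm
  apply Finset.sum_subset h
  intro q _ hq
  refine Finset.sum_eq_zero fun i _ => ?_
  apply wt_zero (isClosed_NN K A S)
  intro x hx
  apply hx.2
  rwa [mk_sg]

theorem aa_mono (A : GMat κ ι G) {S T : Finset (G ⧸ K)} (h : S ⊆ T) : aa K A S ≤ aa K A T := by
  rw [← vdim_NN K A h, ← vdim_NN K A (Finset.Subset.refl T)]
  exact vdim_mono (Submodule.comap_mono (NN_mono K A h))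

theorem aa_super [DecidableEq (G ⧸ K)] (A : GMat κ ι G) (S T : Finset (G ⧸ K)) :
    aa K A S + aa K A T ≤ aa K A (S ∩ T) + aa K A (S ∪ T) := by
  have h1 : S ⊆ S ∪ T := Finset.subset_union_left
  have h2 : T ⊆ S ∪ T := Finset.subset_union_right
  have h3 : S ∩ T ⊆ S ∪ T := Finset.inter_subset_left.trans h1
  rw [← vdim_NN K A h1, ← vdim_NN K A h2, ← vdim_NN K A h3,
    ← vdim_NN K A (Finset.Subset.refl (S ∪ T))]
  have e : cm K (S ∪ T) (NN K A (S ∩ T)) =
      cm K (S ∪ T) (NN K A S) ⊓ cm K (S ∪ T) (NN K A T) := by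
    ext x
    rw [Submodule.mem_inf, mem_cm, mem_cm, mem_cm]
    constructor
    · intro hx
      exact ⟨NN_mono K A Finset.inter_subset_left hx, NN_mono K A Finset.inter_subset_right hx⟩
    · rintro ⟨hx, hy⟩
      refine ⟨hx.1, fun i g hg => ?_⟩
      rw [Finset.mem_inter, not_and_or] at hg
      rcases hg with hg | hg
      · exact hx.2 i g hg
      · exact hy.2 i g hg
  rw [e]
  apply vdim_super (isClosed_cm K _ (isClosed_NN K A S)) (linv_cm K _ (NN_lt K A S))
    (isClosed_cm K _ (isClosed_NN K A T)) (linv_cm K _ (NN_lt K A T))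
    (isClosed_cm K _ (isClosed_NN K A (S ∪ T)))
  · exact Submodule.comap_mono (NN_mono K A h1)
  · exact Submodule.comap_mono (NN_mono K A h2)

theorem wt_K (A : GMat κ ι G) (S : Finset (G ⧸ K)) (k : K) (i : ι) (h : G) :
    wt (NN K A S) (i, (k : G) * h) = wt (NN K A S) (i, h) := by
  have := wt_lt (X := NN K A S) (Y := NN K A S) ((k⁻¹ : K) : G) (fun x hx => NN_lt K A S _ x hx)
    (fun x hx => by
      have := NN_lt K A S k x hx
      simpa using this) i h
  simpa using this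

theorem lt_NN (A : GMat κ ι G) (S : Finset (G ⧸ K)) [DecidableEq (G ⧸ K)] (g : G)
    (x : L2 (ι × G)) (hx : x ∈ NN K A S) :
    VA.lt ι g x ∈ NN K A (S.image (fun p => (g : G ⧸ K)⁻¹ * p)) := by
  refine ⟨linv_lt (linv_kerA A) _ hx.1, ?_⟩
  intro i h hh
  rw [lt_apply]
  apply hx.2
  intro h2
  apply hh
  rw [Finset.mem_image]
  refine ⟨_, h2, ?_⟩
  rw [QuotientGroup.mk_mul, inv_mul_cancel_left]

/-- invariance -/
theorem aa_inv [DecidableEq (G ⧸ K)] (A : GMat κ ι G) (S : Finset (G ⧸ K)) (q : G ⧸ K) :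
    aa K A (S.image (fun p => q * p)) = aa K A S := by
  obtain ⟨g, hg⟩ : ∃ g : G, (g : G ⧸ K)⁻¹ = q := ⟨(sg K q)⁻¹, by
    rw [QuotientGroup.mk_inv, mk_sg, inv_inv]⟩
  subst hg
  unfold aa
  rw [Finset.sum_image (fun a _ b _ h => mul_left_cancel h)]
  refine Finset.sum_congr rfl fun p _ => Finset.sum_congr rfl fun i _ => ?_
  have h1 := wt_lt (X := NN K A S) (Y := NN K A (S.image (fun p => (g : G ⧸ K)⁻¹ * p))) g
    (fun x hx => lt_NN K A S g x hx)
    (fun y hy => by
      have h2 := lt_NN K A _ g⁻¹ y hy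
      rw [Finset.image_image] at h2
      have e : S.image ((fun p => ((g⁻¹ : G) : G ⧸ K)⁻¹ * p) ∘ fun p => (g : G ⧸ K)⁻¹ * p) = S := by
        have : ((fun p => ((g⁻¹ : G) : G ⧸ K)⁻¹ * p) ∘ fun p => (g : G ⧸ K)⁻¹ * p) = id := by
          funext p
          simp [QuotientGroup.mk_inv]
        rw [this, Finset.image_id]
      rwa [e] at h2) i (sg K p)
  rw [← h1]
  obtain ⟨k, hk⟩ := exists_k K (g⁻¹ * sg K p) ((g : G ⧸ K)⁻¹ * p) (by
    rw [QuotientGroup.mk_mul, QuotientGroup.mk_inv, mk_sg])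
  rw [hk, wt_K]

/-- the upper bound -/
theorem aa_upper (A : GMat κ ι G) (S : Finset (G ⧸ K)) :
    aa K A S ≤ S.card * vdim (kerA A) := by
  unfold aa
  rw [← nsmul_eq_mul, ← Finset.sum_const]
  refine Finset.sum_le_sum fun q _ => ?_
  rw [vdim_wt]
  refine Finset.sum_le_sum fun i _ => ?_
  rw [← wt_inv (linv_kerA A) i (sg K q)]
  exact wt_mono inf_le_left _

/-- `V` contains all cosets in which the product with a vector over `S` can be nonzero -/
def Cov (A : GMat κ ι G) (S V : Finset (G ⧸ K)) : Prop :=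
  ∀ k i (h g : G), A k i h ≠ 0 → ((g * h : G) : G ⧸ K) ∈ S → (g : G ⧸ K) ∈ V

theorem act_out (A : GMat κ ι G) {S V : Finset (G ⧸ K)} (hc : Cov K A S V) {x : L2 (ι × G)}
    (hx : x ∈ Sp K ι S) (k : κ) (g : G) (hg : (g : G ⧸ K) ∉ V) : act A x k g = 0 := by
  unfold act
  refine Finset.sum_eq_zero fun i _ => ?_
  rw [Finsupp.sum]
  refine Finset.sum_eq_zero fun h hh => ?_
  rw [hx i (g * h), mul_zero]
  intro h2
  exact hg (hc k i h g (Finsupp.mem_support_iff.1 hh) h2)

/-- the lower bound -/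
theorem aa_lower (A : GMat κ ι G) {S V : Finset (G ⧸ K)} (hc : Cov K A S V) :
    (Fintype.card ι : ℝ) * S.card ≤
      aa K A S + V.card * (Fintype.card ι - vdim (kerA A)) := by
  classical
  set Y : Submodule ℂ (L2 (κ × G)) := ((⊤ : Submodule ℂ (L2 (ι × G))).map
    (op A : L2 (ι × G) →ₗ[ℂ] L2 (κ × G))).topologicalClosure with hY
  have htop : IsClosed ((⊤ : Submodule ℂ (L2 (ι × G))) : Set (L2 (ι × G))) := isClosed_univ
  have hYc : IsClosed (Y : Set (L2 (κ × G))) := Submodule.isClosed_topologicalClosure _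
  have hYl : LInv Y := linv_closure (linv_map (equi_op A) (fun _ _ _ _ _ => trivial))
  have hYd : vdim Y = Fintype.card ι - vdim (kerA A) := by
    have h := vdim_rank htop (fun _ _ _ _ _ => trivial) (op A) (equi_op A)
    rw [vdim_top, top_inf_eq, ← kerA_eq] at h
    linarith
  have hYm : ∀ x, op A x ∈ Y := fun x =>
    Submodule.le_topologicalClosure _ ⟨x, trivial, rfl⟩
  let T : L2 ((ι × {q // q ∈ S}) × K) →L[ℂ] L2 ((κ × {q // q ∈ V}) × K) :=
    (pl K κ V).comp ((op A).comp (pu K ι S))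
  have hT : Equi T := by
    apply equi_of
    intro k x
    change pl K κ V (op A (pu K ι S (VA.lt _ k x))) = VA.lt _ k (pl K κ V (op A (pu K ι S x)))
    rw [pu_lt, equi_lt (equi_op A), pl_lt]
  have hout : ∀ x : L2 ((ι × {q // q ∈ S}) × K), op A (pu K ι S x) ∈ Sp K κ V := by
    intro x k g hg
    rw [op_apply]
    exact act_out K A hc (pu_mem K S x) k g hg
  have hZ : Y ⊓ Sp K κ V ≤ Sp K κ V := inf_le_right
  have hZc : IsClosed ((Y ⊓ Sp K κ V : Submodule ℂ (L2 (κ × G))) : Set (L2 (κ × G))) :=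
    isClosed_inf hYc (isClosed_Sp K V)
  have htop' : IsClosed ((⊤ : Submodule ℂ (L2 ((ι × {q // q ∈ S}) × K))) :
    Set (L2 ((ι × {q // q ∈ S}) × K))) := isClosed_univ
  have h := vdim_rank_le htop' (fun _ _ _ _ _ => trivial) T hT
    (R := cm K V (Y ⊓ Sp K κ V)) (isClosed_cm K V hZc) (by
      intro x _
      rw [mem_cm]
      change pu K κ V (pl K κ V (op A (pu K ι S x))) ∈ _
      rw [pu_pl K V (hout x)]
      exact ⟨hYm _, hout x⟩)
  have hk : (⊤ : Submodule ℂ (L2 ((ι × {q // q ∈ S}) × K))) ⊓ kr T = cm K S (NN K A S) := by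
    rw [top_inf_eq]
    ext x
    rw [mem_kr, mem_cm]
    constructor
    · intro hx
      have h2 : pu K ι S x ∈ kerA A := by
        rw [kerA_eq, mem_kr, ← pu_pl K V (hout x)]
        have : pl K κ V (op A (pu K ι S x)) = 0 := hx
        rw [this, map_zero]
      exact ⟨h2, pu_mem K S x⟩
    · intro hx
      have h2 : pu K ι S x ∈ kerA A := hx.1
      rw [kerA_eq, mem_kr] at h2
      change pl K κ V (op A (pu K ι S x)) = 0
      rw [h2, map_zero]
  rw [hk, vdim_top, vdim_NN K A (Finset.Subset.refl S), Fintype.card_prod, Fintype.card_coe,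
    vdim_cm K V hZc hZ] at h
  push_cast at h
  refine h.trans ?_
  gcongr
  rw [← hYd, ← nsmul_eq_mul, ← Finset.sum_const]
  refine Finset.sum_le_sum fun q _ => ?_
  rw [vdim_wt]
  refine Finset.sum_le_sum fun i _ => ?_
  rw [← wt_inv hYl i (sg K q)]
  exact wt_mono inf_le_left _

/-! ### the matrix over `K` -/

theorem inj_rs (v q : G ⧸ K) :
    Function.Injective (fun a : K => (sg K v)⁻¹ * (a : G) * sg K q) := by
  intro a b h
  exact Subtype.ext (mul_left_cancel (mul_right_cancel h))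

/-- the matrix over `K` -/
noncomputable def rs (A : GMat κ ι G) (S V : Finset (G ⧸ K)) :
    GMat (κ × {q // q ∈ V}) (ι × {q // q ∈ S}) K :=
  fun p q => (A p.1 q.1).comapDomain (fun a : K => (sg K p.2.1)⁻¹ * (a : G) * sg K q.2.1)
    (inj_rs K p.2.1 q.2.1).injOn

theorem act_rs (A : GMat κ ι G) (S V : Finset (G ⧸ K)) (x : L2 ((ι × {q // q ∈ S}) × K)) (k : κ)
    (v : {q // q ∈ V}) (h : K) :
    act (rs K A S V) x (k, v) h = act A (pu K ι S x) k ((h : G) * sg K v.1) := by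
  classical
  unfold act
  rw [Fintype.sum_prod_type]
  refine Finset.sum_congr rfl fun i _ => ?_
  have h1 : ∀ t : {q // q ∈ S}, (rs K A S V (k, v) (i, t)).sum
      (fun a c => c * x ((i, t), h * a)) =
      ∑ a ∈ (rs K A S V (k, v) (i, t)).support,
        (fun u => A k i u * pu K ι S x (i, (h : G) * sg K v.1 * u))
          ((sg K v.1)⁻¹ * (a : G) * sg K t.1) := by
    intro t
    rw [Finsupp.sum]
    refine Finset.sum_congr rfl fun a _ => ?_
    have e1 : (rs K A S V (k, v) (i, t)) a = A k i ((sg K v.1)⁻¹ * (a : G) * sg K t.1) := rfl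
    have e2 : (h : G) * sg K v.1 * ((sg K v.1)⁻¹ * (a : G) * sg K t.1) =
        ((h * a : K) : G) * sg K t.1 := by
      push_cast
      group
    rw [e1]
    simp only [e2]
    have e3 : pu K ι S x (i, ((h * a : K) : G) * sg K t.1) = x ((i, t), h * a) :=
      pu_em K S x ((i, t), h * a)
    rw [e3]
  rw [Finset.sum_congr rfl fun t _ => h1 t, Finset.sum_sigma', Finsupp.sum]
  refine Finset.sum_bij_ne_zero (fun p _ _ => (sg K v.1)⁻¹ * ((p.2 : K) : G) * sg K p.1.1)
    ?_ ?_ ?_ ?_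
  · rintro ⟨t, a⟩ hp _
    have hp' := (Finset.mem_sigma.1 hp).2
    rw [Finsupp.mem_support_iff] at hp' ⊢
    exact hp'
  · rintro ⟨t, a⟩ _ _ ⟨t', a'⟩ _ _ e
    have e2 : (a : G) * sg K t.1 = (a' : G) * sg K t'.1 := by
      have := congrArg (fun z => sg K v.1 * z) e
      simpa [mul_assoc] using this
    have e3 := em_inj K (ι := ι) S (a₁ := ((i, t), a)) (a₂ := ((i, t'), a')) (by
      simp only [em]
      rw [e2])
    simp only [Prod.mk.injEq, true_and] at e3
    obtain ⟨rfl, rfl⟩ := e3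
    rfl
  · intro u hu hne
    have hx : pu K ι S x (i, (h : G) * sg K v.1 * u) ≠ 0 := by
      intro h0
      apply hne
      rw [h0, mul_zero]
    have hS : (((h : G) * sg K v.1 * u : G) : G ⧸ K) ∈ S := by
      by_contra hc
      exact hx (pu_mem K S x i _ hc)
    have hS2 : ((sg K v.1 * u : G) : G ⧸ K) ∈ S := by
      rw [mul_assoc, QuotientGroup.mk_mul, (QuotientGroup.eq_one_iff _).2 h.2, one_mul] at hS
      exact hS
    obtain ⟨a, ha⟩ := exists_k K (sg K v.1 * u) _ rfl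
    have e : (sg K v.1)⁻¹ * (a : G) * sg K ((sg K v.1 * u : G) : G ⧸ K) = u := by
      rw [mul_assoc, ← ha]
      group
    refine ⟨⟨⟨_, hS2⟩, a⟩, ?_, ?_, e⟩
    · rw [Finset.mem_sigma]
      refine ⟨Finset.mem_univ _, ?_⟩
      rw [Finsupp.mem_support_iff] at hu ⊢
      change A k i ((sg K v.1)⁻¹ * (a : G) * sg K ((sg K v.1 * u : G) : G ⧸ K)) ≠ 0
      rw [e]
      exact hu
    · change A k i ((sg K v.1)⁻¹ * (a : G) * sg K ((sg K v.1 * u : G) : G ⧸ K)) *
        pu K ι S x (i, (h : G) * sg K v.1 *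
          ((sg K v.1)⁻¹ * (a : G) * sg K ((sg K v.1 * u : G) : G ⧸ K))) ≠ 0
      rw [e]
      exact hne
  · rintro ⟨t, a⟩ _ _
    rfl

theorem cm_NN (A : GMat κ ι G) {S V : Finset (G ⧸ K)} (hc : Cov K A S V) :
    cm K S (NN K A S) = kerA (rs K A S V) := by
  ext x
  rw [mem_cm]
  constructor
  · rintro hx ⟨k, v⟩ h
    rw [act_rs]
    exact hx.1 k _
  · intro hx
    refine ⟨fun k g => ?_, pu_mem K S x⟩
    by_cases hg : (g : G ⧸ K) ∈ V
    · obtain ⟨h, hh⟩ := exists_k K g _ rfl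
      have := hx (k, ⟨(g : G ⧸ K), hg⟩) h
      rw [act_rs, ← hh] at this
      exact this
    · exact act_out K A hc (pu_mem K S x) k g hg

/-- the cosets of the support -/
noncomputable def TT [DecidableEq (G ⧸ K)] (A : GMat κ ι G) : Finset (G ⧸ K) :=
  Finset.univ.biUnion fun k : κ => Finset.univ.biUnion fun i : ι =>
    (A k i).support.image fun h : G => (h : G ⧸ K)⁻¹

theorem cov_TT [DecidableEq (G ⧸ K)] (A : GMat κ ι G) (S : Finset (G ⧸ K)) :
    Cov K A S (S * TT K A) := by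
  intro k i h g hA hS
  rw [Finset.mem_mul]
  refine ⟨_, hS, (h : G ⧸ K)⁻¹, ?_, ?_⟩
  · unfold TT
    simp only [Finset.mem_biUnion, Finset.mem_univ, true_and, Finset.mem_image]
    exact ⟨k, i, h, Finsupp.mem_support_iff.2 hA, rfl⟩
  · rw [QuotientGroup.mk_mul, mul_inv_cancel_right]

theorem val_aa {R : Subring ℂ} (A : GMat κ ι G) (hA : Coef R A) (S : Finset (G ⧸ K)) :
    Val R K (aa K A S) := by
  classical
  rw [← vdim_NN K A (Finset.Subset.refl S), cm_NN K A (cov_TT K A S)]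
  apply val_of
  intro k i h
  exact hA _ _ _

end Run7.h623.AE
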