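import Pool.Agent.W656.VA7

/-!
Restriction to finitely many cosets of a normal subgroup: local dimensions.
-/

set_option autoImplicit false
set_option linter.unusedSectionVars false

open scoped InnerProductSpace ENNReal
open Filter Topology

namespace Run7.h623.AE

open Pool.Agent.H80R2
open Pool.Agent.H80R2.BC (L2 GMat vdim IsTr LInv Equi act kerA dk TorDiv Coef AtR)
open Pool.Agent.H812R3
open Pool.Agent.W656
open Pool.Agent.W656.VA

variable {ι κ G : Type} [Group G]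

/-! ### weights -/

/-- the local dimension at a basis vector -/
noncomputable def wt (X : Submodule ℂ (L2 (ι × G))) (p : ι × G) : ℝ :=
  1 - Metric.infDist (de p) (X : Set (L2 (ι × G))) ^ 2

theorem wt_mono {X Y : Submodule ℂ (L2 (ι × G))} (h : X ≤ Y) (p : ι × G) : wt X p ≤ wt Y p := by
  unfold wt
  have h1 : Metric.infDist (de p) (Y : Set (L2 (ι × G))) ≤
      Metric.infDist (de p) (X : Set (L2 (ι × G))) :=
    Metric.infDist_le_infDist_of_subset h ⟨0, X.zero_mem⟩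
  have h2 := pow_le_pow_left₀ Metric.infDist_nonneg h1 2
  linarith

theorem wt_eq (X : Submodule ℂ (L2 (ι × G))) [X.HasOrthogonalProjection] (p : ι × G) :
    wt X p = ‖X.starProjection (de p)‖ ^ 2 := infDist_eq X _ (norm_de _)

theorem wt_bot (p : ι × G) : wt (⊥ : Submodule ℂ (L2 (ι × G))) p = 0 := by
  rw [wt_eq]
  simp

theorem wt_nonneg (X : Submodule ℂ (L2 (ι × G))) (p : ι × G) : 0 ≤ wt X p := by
  rw [← wt_bot (ι := ι) (G := G) p]
  exact wt_mono bot_le p

theorem vdim_wt [Fintype ι] (X : Submodule ℂ (L2 (ι × G))) : vdim X = ∑ i : ι, wt X (i, 1) := by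
  unfold vdim wt
  simp only [dl_eq]

theorem wt_zero {X : Submodule ℂ (L2 (ι × G))} (hX : IsClosed (X : Set (L2 (ι × G)))) (p : ι × G)
    (h : ∀ x ∈ X, x p = 0) : wt X p = 0 := by
  have iX := hasProj hX
  rw [wt_eq]
  have : X.starProjection (de p) = 0 := by
    rw [Submodule.starProjection_apply_eq_zero_iff, Submodule.mem_orthogonal]
    intro u hu
    rw [inner_de_right, h u hu, map_zero]
  rw [this]
  simp

theorem isometry_lt (g : G) : Isometry (VA.lt ι g : L2 (ι × G) → L2 (ι × G)) := by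
  apply AddMonoidHomClass.isometry_of_norm
  intro x
  have h := inner_lt_lt (ι := ι) g x x
  rw [inner_self_eq_norm_sq_to_K, inner_self_eq_norm_sq_to_K] at h
  have h2 : ‖VA.lt ι g x‖ ^ 2 = ‖x‖ ^ 2 := by exact_mod_cast h
  exact (pow_left_inj₀ (norm_nonneg _) (norm_nonneg _) two_ne_zero).1 h2

/-- weights and translations -/
theorem wt_lt {X Y : Submodule ℂ (L2 (ι × G))} (g : G) (h1 : ∀ x ∈ X, VA.lt ι g x ∈ Y)
    (h2 : ∀ y ∈ Y, VA.lt ι g⁻¹ y ∈ X) (i : ι) (h : G) : wt Y (i, g⁻¹ * h) = wt X (i, h) := by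
  have e : (Y : Set (L2 (ι × G))) = (VA.lt ι g) '' (X : Set (L2 (ι × G))) := by
    ext y
    constructor
    · intro hy
      refine ⟨VA.lt ι g⁻¹ y, h2 y hy, ?_⟩
      rw [lt_lt, inv_mul_cancel, lt_one]
    · rintro ⟨x, hx, rfl⟩
      exact h1 x hx
  unfold wt
  rw [e, ← lt_de, Metric.infDist_image (isometry_lt g)]

theorem wt_inv {X : Submodule ℂ (L2 (ι × G))} (hX : LInv X) (i : ι) (h : G) :
    wt X (i, h) = wt X (i, 1) := by
  have := wt_lt (X := X) (Y := X) h⁻¹ (fun x hx => linv_lt hX _ hx)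
    (fun x hx => linv_lt hX _ hx) i 1
  rw [inv_inv, mul_one] at this
  exact this

section cosets
variable (K : Subgroup G) [K.Normal]

/-- representatives of the cosets -/
noncomputable def sg (q : G ⧸ K) : G := Quotient.out q

theorem mk_sg (q : G ⧸ K) : ((sg K q : G) : G ⧸ K) = q := Quotient.out_eq' q

theorem mk_mul_sg (k : K) (q : G ⧸ K) : (((k : G) * sg K q : G) : G ⧸ K) = q := by
  rw [QuotientGroup.mk_mul, mk_sg, (QuotientGroup.eq_one_iff _).2 k.2, one_mul]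

theorem exists_k (g : G) (q : G ⧸ K) (h : (g : G ⧸ K) = q) : ∃ k : K, g = k * sg K q := by
  have : g * (sg K q)⁻¹ ∈ K := by
    rw [← QuotientGroup.eq_one_iff, QuotientGroup.mk_mul, QuotientGroup.mk_inv, mk_sg, h,
      mul_inv_cancel]
  exact ⟨⟨_, this⟩, by simp⟩

/-- the embedding of the index sets -/
noncomputable def em (ι : Type) (W : Finset (G ⧸ K)) (p : (ι × {q // q ∈ W}) × K) : ι × G :=
  (p.1.1, (p.2 : G) * sg K p.1.2.1)

theorem em_inj (W : Finset (G ⧸ K)) : Function.Injective (em K ι W) := by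
  rintro ⟨⟨i, q, hq⟩, k⟩ ⟨⟨i', q', hq'⟩, k'⟩ h
  simp only [em, Prod.mk.injEq] at h
  obtain ⟨rfl, h2⟩ := h
  have h3 : q = q' := by
    rw [← mk_mul_sg K k q, h2, mk_mul_sg]
  subst h3
  have h4 : k = k' := Subtype.ext (mul_right_cancel h2)
  rw [h4]

/-- vectors with support over the finite set `W` of cosets -/
def Sp (ι : Type) (W : Finset (G ⧸ K)) : Submodule ℂ (L2 (ι × G)) where
  carrier := {x | ∀ i (g : G), (g : G ⧸ K) ∉ W → x (i, g) = 0}
  zero_mem' := fun _ _ _ => rfl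
  add_mem' := by
    intro x y hx hy i g hg
    rw [lp.coeFn_add, Pi.add_apply, hx i g hg, hy i g hg, add_zero]
  smul_mem' := by
    intro c x hx i g hg
    rw [lp.coeFn_smul, Pi.smul_apply, hx i g hg, smul_zero]

theorem mem_Sp {W : Finset (G ⧸ K)} {x : L2 (ι × G)} :
    x ∈ Sp K ι W ↔ ∀ i (g : G), (g : G ⧸ K) ∉ W → x (i, g) = 0 := Iff.rfl

theorem isClosed_Sp (W : Finset (G ⧸ K)) : IsClosed (Sp K ι W : Set (L2 (ι × G))) := by
  have : (Sp K ι W : Set (L2 (ι × G))) =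
      ⋂ (i : ι) (g : G) (_ : (g : G ⧸ K) ∉ W), {x | ⟪(de (i, g) : L2 (ι × G)), x⟫_ℂ = 0} := by
    ext x
    simp only [Set.mem_iInter, Set.mem_ofPred_eq, inner_de]
    rfl
  rw [this]
  refine isClosed_iInter fun i => isClosed_iInter fun g => isClosed_iInter fun _ => ?_
  exact isClosed_eq (continuous_const.inner continuous_id) continuous_const

/-- extension by zero -/
noncomputable def pu (ι : Type) (W : Finset (G ⧸ K)) :
    L2 ((ι × {q // q ∈ W}) × K) →L[ℂ] L2 (ι × G) := KP.push (em K ι W) (em_inj K W)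

/-- restriction -/
noncomputable def pl (ι : Type) (W : Finset (G ⧸ K)) :
    L2 (ι × G) →L[ℂ] L2 ((ι × {q // q ∈ W}) × K) := KP.pull (em K ι W) (em_inj K W)

theorem pl_apply (W : Finset (G ⧸ K)) (x : L2 (ι × G)) (p : (ι × {q // q ∈ W}) × K) :
    pl K ι W x p = x (em K ι W p) := rfl

theorem pu_em (W : Finset (G ⧸ K)) (x : L2 ((ι × {q // q ∈ W}) × K))
    (p : (ι × {q // q ∈ W}) × K) : pu K ι W x (em K ι W p) = x p := pushL_apply _ _ _ _

theorem pu_mem (W : Finset (G ⧸ K)) (x : L2 ((ι × {q // q ∈ W}) × K)) :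
    pu K ι W x ∈ Sp K ι W := by
  intro i g hg
  apply pushL_apply_ne
  rintro ⟨⟨i', q, hq⟩, k⟩ h
  simp only [em, Prod.mk.injEq] at h
  apply hg
  rw [← h.2, mk_mul_sg]
  exact hq

theorem pl_pu (W : Finset (G ⧸ K)) (x : L2 ((ι × {q // q ∈ W}) × K)) :
    pl K ι W (pu K ι W x) = x := by
  ext p
  rw [pl_apply, pu_em]

theorem pu_pl (W : Finset (G ⧸ K)) {x : L2 (ι × G)} (hx : x ∈ Sp K ι W) :
    pu K ι W (pl K ι W x) = x := by
  ext ⟨i, g⟩
  by_cases hg : (g : G ⧸ K) ∈ W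
  · obtain ⟨k, hk⟩ := exists_k K g _ rfl
    have e : (i, g) = em K ι W ((i, ⟨(g : G ⧸ K), hg⟩), k) := by
      simp only [em]
      rw [← hk]
    rw [e, pu_em, pl_apply]
  · rw [pu_mem K W _ i g hg, hx i g hg]

theorem inner_pu (W : Finset (G ⧸ K)) (y : L2 (ι × G)) (x : L2 ((ι × {q // q ∈ W}) × K)) :
    ⟪y, pu K ι W x⟫_ℂ = ⟪pl K ι W y, x⟫_ℂ := by
  rw [pu, KP.push, ContinuousLinearMap.adjoint_inner_right]
  rfl

theorem norm_pl (W : Finset (G ⧸ K)) {x : L2 (ι × G)} (hx : x ∈ Sp K ι W) :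
    ‖pl K ι W x‖ = ‖x‖ := by
  have h : ⟪pl K ι W x, pl K ι W x⟫_ℂ = ⟪x, x⟫_ℂ := by
    rw [← inner_pu, pu_pl K W hx]
  rw [inner_self_eq_norm_sq_to_K, inner_self_eq_norm_sq_to_K] at h
  have h2 : ‖pl K ι W x‖ ^ 2 = ‖x‖ ^ 2 := by exact_mod_cast h
  exact (pow_left_inj₀ (norm_nonneg _) (norm_nonneg _) two_ne_zero).1 h2

theorem pl_lt (W : Finset (G ⧸ K)) (k : K) (x : L2 (ι × G)) :
    pl K ι W (VA.lt ι (k : G) x) = VA.lt (ι × {q // q ∈ W}) k (pl K ι W x) := by
  ext ⟨⟨i, q⟩, h⟩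
  change x (i, (k : G) * ((h : G) * sg K q)) = x (i, ((k * h : K) : G) * sg K q)
  rw [Subgroup.coe_mul, mul_assoc]

theorem Sp_lt (W : Finset (G ⧸ K)) (k : K) {x : L2 (ι × G)} (hx : x ∈ Sp K ι W) :
    VA.lt ι (k : G) x ∈ Sp K ι W := by
  intro i g hg
  rw [lt_apply]
  apply hx
  rwa [QuotientGroup.mk_mul, (QuotientGroup.eq_one_iff _).2 k.2, one_mul]

theorem pu_lt (W : Finset (G ⧸ K)) (k : K) (x : L2 ((ι × {q // q ∈ W}) × K)) :
    pu K ι W (VA.lt (ι × {q // q ∈ W}) k x) = VA.lt ι (k : G) (pu K ι W x) := by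
  have h := pl_lt K W k (pu K ι W x)
  rw [pl_pu] at h
  rw [← h, pu_pl K W (Sp_lt K W k (pu_mem K W x))]

/-- the part over `W` as a subspace of `ℓ²` over `K` -/
noncomputable def cm (W : Finset (G ⧸ K)) (X : Submodule ℂ (L2 (ι × G))) :
    Submodule ℂ (L2 ((ι × {q // q ∈ W}) × K)) :=
  X.comap (pu K ι W : L2 ((ι × {q // q ∈ W}) × K) →ₗ[ℂ] L2 (ι × G))

theorem mem_cm {W : Finset (G ⧸ K)} {X : Submodule ℂ (L2 (ι × G))}
    {x : L2 ((ι × {q // q ∈ W}) × K)} : x ∈ cm K W X ↔ pu K ι W x ∈ X := Iff.rfl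

theorem isClosed_cm (W : Finset (G ⧸ K)) {X : Submodule ℂ (L2 (ι × G))}
    (hX : IsClosed (X : Set (L2 (ι × G)))) :
    IsClosed (cm K W X : Set (L2 ((ι × {q // q ∈ W}) × K))) :=
  hX.preimage (pu K ι W).continuous

theorem linv_cm (W : Finset (G ⧸ K)) {X : Submodule ℂ (L2 (ι × G))}
    (hX : ∀ (k : K), ∀ x ∈ X, VA.lt ι (k : G) x ∈ X) : LInv (cm K W X) := by
  apply linv_of
  intro k x hx
  rw [mem_cm] at hx ⊢
  rw [pu_lt]
  exact hX k _ hx

/-- the dimension over `K` is the sum of the local dimensions -/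
theorem vdim_cm [Fintype ι] (W : Finset (G ⧸ K)) {X : Submodule ℂ (L2 (ι × G))}
    (hX : IsClosed (X : Set (L2 (ι × G)))) (hW : X ≤ Sp K ι W) :
    vdim (cm K W X) = ∑ q ∈ W, ∑ i : ι, wt X (i, sg K q) := by
  have iX := hasProj hX
  have iC := hasProj (isClosed_cm K W hX)
  have h1 : ∀ p : ι × {q // q ∈ W},
      (cm K W X).starProjection (de (p, (1 : K))) =
        pl K ι W (X.starProjection (de (p.1, sg K p.2.1))) := by
    intro p
    have hm : X.starProjection (de (p.1, sg K p.2.1)) ∈ X := Submodule.starProjection_apply_mem _ _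
    apply Submodule.eq_starProjection_of_mem_of_inner_eq_zero
    · rw [mem_cm, pu_pl K W (hW hm)]
      exact hm
    · intro w hw
      rw [inner_sub_left, ← inner_pu, inner_de,
        Submodule.inner_starProjection_left_eq_right,
        Submodule.starProjection_eq_self_iff.2 ((mem_cm K).1 hw), inner_de]
      have e : ((p.1, sg K p.2.1) : ι × G) = em K ι W (p, 1) := by
        simp [em]
      rw [e, pu_em, sub_self]
  rw [vdim_eq, Fintype.sum_prod_type, Finset.sum_comm]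
  rw [← Finset.sum_coe_sort W (fun q => ∑ i : ι, wt X (i, sg K q))]
  refine Finset.sum_congr rfl fun q _ => Finset.sum_congr rfl fun i _ => ?_
  rw [h1, wt_eq, norm_pl K W (hW (Submodule.starProjection_apply_mem _ _))]

end cosets

end Run7.h623.AE
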