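import Pool.Agent.TH714.PF.Fol

/-!
Supermodular invariant functions on the finite subsets of an amenable left-ordered group.
-/

set_option autoImplicit false
set_option linter.unusedSectionVars false

open scoped Pointwise

namespace Run7.h623.AE

open Pool.Agent.TH714.PF (Fol)

section
variable {Q : Type} [Group Q] [LinearOrder Q]

/-- the differences at the bottom -/
noncomputable def DD (a : Finset Q → ℝ) (S : Finset Q) (q : Q) : ℝ :=
  a (S.filter fun x => q ≤ x) - a (S.filter fun x => q < x)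

theorem sum_DD (a : Finset Q → ℝ) (h0 : a ∅ = 0) (S : Finset Q) : ∑ q ∈ S, DD a S q = a S := by
  induction S using Finset.induction_on_min with
  | empty => rw [Finset.sum_empty, h0]
  | insert m S hm ih =>
    have hmS : m ∉ S := fun h => lt_irrefl _ (hm m h)
    rw [Finset.sum_insert hmS]
    have h1 : ∀ q ∈ S, DD a (insert m S) q = DD a S q := by
      intro q hq
      unfold DD
      congr 2
      · rw [Finset.filter_insert, if_neg (not_le.2 (hm q hq))]
      · rw [Finset.filter_insert, if_neg (not_lt.2 (hm q hq).le)]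
    rw [Finset.sum_congr rfl h1, ih]
    unfold DD
    have h2 : (insert m S).filter (fun x => m ≤ x) = insert m S := by
      apply Finset.filter_true_of_mem
      intro x hx
      rcases Finset.mem_insert.1 hx with rfl | hx
      · exact le_rfl
      · exact (hm x hx).le
    have h3 : (insert m S).filter (fun x => m < x) = S := by
      rw [Finset.filter_insert, if_neg (lt_irrefl _)]
      exact Finset.filter_true_of_mem hm
    rw [h2, h3]
    ring

theorem DD_nonneg (a : Finset Q → ℝ) (hm : ∀ S T, S ⊆ T → a S ≤ a T) (S : Finset Q) (q : Q) :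
    0 ≤ DD a S q := by
  unfold DD
  rw [sub_nonneg]
  apply hm
  intro x hx
  rw [Finset.mem_filter] at hx ⊢
  exact ⟨hx.1, hx.2.le⟩

theorem DD_mono (a : Finset Q → ℝ) (hs : ∀ S T, a S + a T ≤ a (S ∩ T) + a (S ∪ T))
    {S T : Finset Q} (h : S ⊆ T) {q : Q} (hq : q ∈ S) : DD a S q ≤ DD a T q := by
  have h1 := hs (S.filter fun x => q ≤ x) (T.filter fun x => q < x)
  have e1 : (S.filter fun x => q ≤ x) ∩ (T.filter fun x => q < x) = S.filter fun x => q < x := by
    ext x
    simp only [Finset.mem_inter, Finset.mem_filter]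
    constructor
    · rintro ⟨⟨a, _⟩, _, b⟩
      exact ⟨a, b⟩
    · rintro ⟨a, b⟩
      exact ⟨⟨a, b.le⟩, h a, b⟩
  have e2 : (S.filter fun x => q ≤ x) ∪ (T.filter fun x => q < x) = T.filter fun x => q ≤ x := by
    ext x
    simp only [Finset.mem_union, Finset.mem_filter]
    constructor
    · rintro (⟨a, b⟩ | ⟨a, b⟩)
      · exact ⟨h a, b⟩
      · exact ⟨a, b.le⟩
    · rintro ⟨a, b⟩
      rcases b.eq_or_lt with rfl | b
      · exact Or.inl ⟨hq, le_rfl⟩
      · exact Or.inr ⟨a, b⟩
  rw [e1, e2] at h1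
  unfold DD
  linarith

theorem DD_inv (a : Finset Q → ℝ) (hl : ∀ x y z : Q, x < y → z * x < z * y)
    (hi : ∀ (S : Finset Q) (q : Q), a (S.image fun p => q * p) = a S) (S : Finset Q) (q p : Q) :
    DD a (S.image fun p => q * p) (q * p) = DD a S p := by
  have hl' : ∀ x y z : Q, z * x < z * y ↔ x < y := by
    intro x y z
    refine ⟨fun h => ?_, hl x y z⟩
    have := hl _ _ z⁻¹ h
    simpa using this
  have hl2 : ∀ x y z : Q, z * x ≤ z * y ↔ x ≤ y := by
    intro x y z
    rw [← not_lt, ← not_lt, hl']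
  unfold DD
  rw [Finset.filter_image, Finset.filter_image, hi, hi]
  simp only [hl', hl2]

variable (a : Finset Q → ℝ) (v n : ℝ) (h0 : a ∅ = 0) (hm : ∀ S T, S ⊆ T → a S ≤ a T)
  (hs : ∀ S T, a S + a T ≤ a (S ∩ T) + a (S ∪ T))
  (hi : ∀ (S : Finset Q) (q : Q), a (S.image fun p => q * p) = a S)
  (hup : ∀ S, a S ≤ S.card * v) (hF : Fol Q) (hl : ∀ x y z : Q, x < y → z * x < z * y)

include h0 hm hs hi hup hF hl

/-- the differences are bounded by the density -/
theorem DD_le (S : Finset Q) (hS : (1 : Q) ∈ S) : DD a S 1 ≤ v := by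
  classical
  by_contra hcon
  push Not at hcon
  set D := DD a S 1 with hD
  have hD0 : 0 ≤ D := DD_nonneg a hm S 1
  have hv : 0 ≤ v := by
    have h1 := hup {1}
    have h2 := hm ∅ {1} (Finset.empty_subset _)
    rw [Finset.card_singleton] at h1
    push_cast at h1
    linarith
  have hDpos : 0 < D := lt_of_le_of_lt hv hcon
  have hSc : (0 : ℝ) < S.card := by exact_mod_cast Finset.card_pos.2 ⟨1, hS⟩
  set ε : ℝ := (D - v) / (2 * S.card * D) with hε
  have hεp : 0 < ε := by
    apply div_pos (by linarith)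
    positivity
  obtain ⟨Φ, hΦ, hc⟩ := hF.ex S ε hεp
  have hΦc : (0 : ℝ) < Φ.card := by exact_mod_cast hΦ.card_pos
  -- the good elements
  set good := Φ.filter (fun q => S.image (fun p => q * p) ⊆ Φ) with hgood
  have hbad : ((Φ \ good).card : ℝ) ≤ S.card * (ε * Φ.card) := by
    have hsub : Φ ⊆ Φ * S := fun x hx => Finset.mem_mul.2 ⟨x, hx, 1, hS, mul_one x⟩
    have h1 : (((Φ * S) \ Φ).card : ℝ) ≤ ε * Φ.card := by
      rw [Finset.card_sdiff_of_subset hsub, Nat.cast_sub (Finset.card_le_card hsub)]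
      linarith
    have h2 : Φ \ good ⊆ S.biUnion fun s => ((Φ * S) \ Φ).image fun x => x * s⁻¹ := by
      intro q hq
      rw [Finset.mem_sdiff, hgood, Finset.mem_filter, not_and] at hq
      obtain ⟨x, hx, hx2⟩ := Finset.not_subset.1 (hq.2 hq.1)
      rw [Finset.mem_image] at hx
      obtain ⟨s, hs, rfl⟩ := hx
      rw [Finset.mem_biUnion]
      refine ⟨s, hs, ?_⟩
      rw [Finset.mem_image]
      refine ⟨q * s, ?_, by simp⟩
      rw [Finset.mem_sdiff]
      exact ⟨Finset.mul_mem_mul hq.1 hs, hx2⟩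
    have h3 : (Φ \ good).card ≤ S.card * ((Φ * S) \ Φ).card := by
      refine (Finset.card_le_card h2).trans ?_
      apply Finset.card_biUnion_le_card_mul
      intro s _
      exact Finset.card_image_le
    calc ((Φ \ good).card : ℝ) ≤ ((S.card * ((Φ * S) \ Φ).card : ℕ) : ℝ) := by exact_mod_cast h3
      _ = S.card * ((Φ * S) \ Φ).card := by push_cast; ring
      _ ≤ _ := mul_le_mul_of_nonneg_left h1 hSc.le
  have hgc : (Φ.card : ℝ) - S.card * (ε * Φ.card) ≤ good.card := by
    have h1 : good ⊆ Φ := Finset.filter_subset _ _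
    have h2 : ((Φ \ good).card : ℝ) = Φ.card - good.card := by
      rw [Finset.card_sdiff_of_subset h1, Nat.cast_sub (Finset.card_le_card h1)]
    linarith
  have hge : (good.card : ℝ) * D ≤ a Φ := by
    rw [← sum_DD a h0 Φ]
    have h1 : ∑ q ∈ good, DD a Φ q ≤ ∑ q ∈ Φ, DD a Φ q :=
      Finset.sum_le_sum_of_subset_of_nonneg (Finset.filter_subset _ _)
        (fun q _ _ => DD_nonneg a hm Φ q)
    refine le_trans ?_ h1
    rw [← nsmul_eq_mul, ← Finset.sum_const]
    refine Finset.sum_le_sum fun q hq => ?_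
    rw [hgood, Finset.mem_filter] at hq
    have h2 := DD_inv a hl hi S q 1
    rw [mul_one] at h2
    rw [hD, ← h2]
    apply DD_mono a hs hq.2
    rw [Finset.mem_image]
    exact ⟨1, hS, mul_one q⟩
  have h1 := hup Φ
  have h2 : ((Φ.card : ℝ) - S.card * (ε * Φ.card)) * D ≤ Φ.card * v :=
    (mul_le_mul_of_nonneg_right hgc hD0).trans (hge.trans h1)
  have h3 : ((1 : ℝ) - S.card * ε) * D ≤ v := by
    have : (Φ.card : ℝ) * (((1 : ℝ) - S.card * ε) * D) ≤ Φ.card * v := by
      refine le_trans (le_of_eq ?_) h2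
      ring
    exact le_of_mul_le_mul_left this hΦc
  have h4 : (S.card : ℝ) * ε * D = (D - v) / 2 := by
    rw [hε]
    field_simp
  linarith

/-- the density is a limit of differences -/
theorem exists_diff (Θ : Finset Q)
    (hlow : ∀ S : Finset Q, n * S.card ≤ a S + ((S * Θ).card : ℝ) * (n - v)) (hn : v ≤ n)
    (ε : ℝ) (hε : 0 < ε) :
    ∃ S T : Finset Q, a S - a T ≤ v ∧ v - ε ≤ a S - a T := by
  classical
  set δ : ℝ := ε / (n - v + 1) with hδ
  have hd : 0 < n - v + 1 := by linarith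
  have hδp : 0 < δ := div_pos hε hd
  obtain ⟨Φ, hΦ, hc⟩ := hF.ex Θ δ hδp
  have hΦc : (0 : ℝ) < Φ.card := by exact_mod_cast hΦ.card_pos
  have h1 := hlow Φ
  have h2 : (Φ.card : ℝ) * (v - ε) ≤ a Φ := by
    have h3 : ((Φ * Θ).card : ℝ) * (n - v) ≤ (1 + δ) * Φ.card * (n - v) :=
      mul_le_mul_of_nonneg_right hc (by linarith)
    have h4 : δ * (n - v) ≤ ε := by
      rw [hδ, div_mul_eq_mul_div, div_le_iff₀ hd]
      nlinarith
    nlinarith
  have h3 : ∃ q ∈ Φ, v - ε ≤ DD a Φ q := by
    by_contra hcon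
    push Not at hcon
    have h4 := Finset.sum_lt_sum_of_nonempty hΦ hcon
    rw [sum_DD a h0, Finset.sum_const, nsmul_eq_mul] at h4
    linarith
  obtain ⟨q, hq, hq2⟩ := h3
  refine ⟨_, _, ?_, hq2⟩
  have h4 := DD_inv a hl hi Φ q⁻¹ q
  have h5 : DD a (Φ.image fun p => q⁻¹ * p) (q⁻¹ * q) ≤ v := by
    rw [inv_mul_cancel]
    apply DD_le a v h0 hm hs hi hup hF hl
    rw [Finset.mem_image]
    exact ⟨q, hq, inv_mul_cancel q⟩
  rw [h4] at h5
  exact h5

end

end Run7.h623.AE
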