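import Pool.Agent.Run7.h623.AE.Dim
import Pool.Agent.Run7.h623.AE.Order
import Pool.Agent.TH107.AT.Fi
import Pool.Agent.TH107.AT.Ore
import Pool.Agent.W656.VA8

/-!
The extension theorem for the values of kernel dimensions.
-/

set_option autoImplicit false
set_option linter.unusedSectionVars false

open scoped InnerProductSpace ENNReal Pointwise
open Filter Topology

namespace Run7.h623.AE

open Pool.Agent.H80R2
open Pool.Agent.H80R2.BC (L2 GMat vdim IsTr LInv Equi act kerA dk TorDiv Coef AtR)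
open Pool.Agent.H812R3
open Pool.Agent.W656
open Pool.Agent.W656.VA
open Pool.Agent.TH714.PF (Fol)

/-- left-orderable groups -/
def LO (Q : Type) [Group Q] : Prop := ∃ _ : LinearOrder Q, ∀ x y z : Q, x < y → z * x < z * y

/-- the extension theorem -/
theorem ext_val {G : Type} [Group G] (K : Subgroup G) [K.Normal] (hF : Fol (G ⧸ K))
    (hO : LO (G ⧸ K)) {R : Subring ℂ} {v : ℝ} (hv : Val R G v) (ε : ℝ) (hε : 0 < ε) :
    ∃ x y : ℝ, Val R K x ∧ Val R K y ∧ x - y ≤ v ∧ v - ε ≤ x - y := by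
  obtain ⟨_, hl⟩ := hO
  obtain ⟨m, n, A, hA, rfl⟩ := hv
  obtain ⟨S, T, h1, h2⟩ := exists_diff (aa K A) (vdim (kerA A)) (m : ℝ) (aa_empty K A)
    (fun S T h => aa_mono K A h) (fun S T => aa_super K A S T) (fun S q => aa_inv K A S q)
    (fun S => aa_upper K A S) hF hl (TT K A)
    (fun S => by
      have := aa_lower K A (cov_TT K A S)
      rwa [Fintype.card_fin] at this)
    (by
      have := vdim_le_card (kerA A)
      rwa [Fintype.card_fin] at this) ε hε
  exact ⟨_, _, val_aa K A hA S, val_aa K A hA T, h1, h2⟩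

/-- integrality passes to the extension -/
theorem ext_int {G : Type} [Group G] (K : Subgroup G) [K.Normal] (hF : Fol (G ⧸ K))
    (hO : LO (G ⧸ K)) {R : Subring ℂ} (d : ℕ) (hd : 0 < d)
    (hK : ∀ x, Val R K x → ∃ z : ℤ, (d : ℝ) * x = z) {v : ℝ} (hv : Val R G v) :
    (∃ z : ℤ, (d : ℝ) * v = z) ∧ ∃ x y : ℝ, Val R K x ∧ Val R K y ∧ v = x - y := by
  have hdr : (0 : ℝ) < d := by exact_mod_cast hd
  set k : ℤ := ⌈(d : ℝ) * v⌉ with hk
  have hk1 : (d : ℝ) * v ≤ k := Int.le_ceil _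
  have hk2 : (k : ℝ) < d * v + 1 := Int.ceil_lt_add_one _
  -- the distance to the next smaller multiple
  have hgap : ∃ δ : ℝ, 0 < δ ∧ ∀ z : ℤ, (z : ℝ) ≤ d * v → d * v - δ < z → (z : ℝ) = d * v := by
    refine ⟨(d : ℝ) * v - (k - 1), by linarith, fun z hz1 hz2 => ?_⟩
    have h1 : ((k - 1 : ℤ) : ℝ) < z := by
      push_cast
      linarith
    have h2 : k - 1 < z := by exact_mod_cast h1
    have h3 : k ≤ z := by omega
    have h4 : (k : ℝ) ≤ z := by exact_mod_cast h3
    linarith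
  obtain ⟨δ, hδ, hgap⟩ := hgap
  obtain ⟨x, y, hx, hy, h1, h2⟩ := ext_val K hF hO hv (δ / (2 * d)) (by positivity)
  obtain ⟨a, ha⟩ := hK x hx
  obtain ⟨b, hb⟩ := hK y hy
  have e : ((a - b : ℤ) : ℝ) = d * (x - y) := by
    push_cast
    rw [← ha, ← hb]
    ring
  have h3 : ((a - b : ℤ) : ℝ) ≤ d * v := by
    rw [e]
    exact mul_le_mul_of_nonneg_left h1 hdr.le
  have h4 : d * v - δ < ((a - b : ℤ) : ℝ) := by
    rw [e]
    have h5 := mul_le_mul_of_nonneg_left h2 hdr.le
    have h6 : (d : ℝ) * (v - δ / (2 * d)) = d * v - δ / 2 := by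
      field_simp
    rw [h6] at h5
    linarith
  have h5 := hgap _ h3 h4
  refine ⟨⟨a - b, h5.symm⟩, x, y, hx, hy, ?_⟩
  rw [e] at h5
  exact (mul_left_cancel₀ hdr.ne' h5).symm

/-! ### finite groups -/

theorem fol_triv (G : Type) [Group G] [Subsingleton G] : Fol G := by
  intro S ε hε
  refine ⟨{1}, Finset.singleton_nonempty _, ?_⟩
  have h1 : ∀ T : Finset G, (T.card : ℝ) ≤ 1 := by
    intro T
    have : T.card ≤ 1 := Finset.card_le_one.2 fun a _ b _ => Subsingleton.elim a b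
    exact_mod_cast this
  refine (h1 _).trans ?_
  rw [Finset.card_singleton]
  push_cast
  linarith

theorem int_triv {G : Type} [Group G] [Subsingleton G] {R : Subring ℂ} {v : ℝ} (hv : Val R G v) :
    ∃ z : ℤ, v = z := by
  obtain ⟨m, n, A, hA, rfl⟩ := hv
  have h := Pool.Agent.TH107.AT.integral_ore (G := G)
    (fun L _ hne => absurd (Subsingleton.elim L ⊥) hne) (fol_triv G) m (Fin n)
    (Matrix.of fun k i => MonoidAlgebra.ofCoeff (A k i))
  rw [Pool.Agent.TH107.AT.kr_mop] at h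
  exact h

theorem int_finite {G : Type} [Group G] [Finite G] {R : Subring ℂ} {v : ℝ} (hv : Val R G v) :
    ∃ z : ℤ, (Nat.card G : ℝ) * v = z := by
  obtain ⟨m, n, A, hA, rfl⟩ := hv
  have : Fintype (G ⧸ (⊥ : Subgroup G)) := Fintype.ofFinite _
  have h := Pool.Agent.TH107.AT.vdim_res (⊥ : Subgroup G) A
  have e : Fintype.card (G ⧸ (⊥ : Subgroup G)) = Nat.card G := by
    rw [← Nat.card_eq_fintype_card]
    exact Nat.card_congr QuotientGroup.quotientBot.toEquiv
  rw [e] at h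
  rw [← h]
  have : Subsingleton (⊥ : Subgroup G) := inferInstance
  apply int_triv (G := (⊥ : Subgroup G)) (R := R)
  apply val_of
  intro k i g
  exact hA _ _ _

end Run7.h623.AE
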